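import Pool.Agent.R580.Hurwitz5

set_option autoImplicit false

/-!
# Constructing a positive Hurwitz product in polynomial time

The algorithm outputs the colour vector `α` with
`α k = 2 ^ (20 (n + m + 1)²) · (number of edges of colour k in all closed walks of length at most
2n through the first vertex, counted with multiplicity)`.

Definitions used in the statement: `hurwitz`, `code` (from `Pool.Agent.R580.Hurwitz5`), and
`PolyTime`, `bits` (from `Pool.Agent.NPC.Defs`, which uses the Turing machines of Mathlib).
-/

open Pool.Agent.NPC Pool.Agent.R580.Hurwitz Pool.Agent.NPC.Hurw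

namespace Pool.Agent.Results.MP_9c2350_lc.PositiveHurwitz

/-- `α` is a colour vector (of positive length) whose Hurwitz product is positive -/
def IsPositive {n m : ℕ} (A : Fin m → Matrix (Fin n) (Fin n) ℚ) (α : Fin m → ℕ) : Prop :=
  1 ≤ ∑ k, α k ∧ ∀ i j, 0 < hurwitz A α i j

/-- **Theorem.** There is a polynomial-time algorithm which, given (the entries of) an `m`-primitive
family of nonnegative rational matrices, outputs a colour vector (in binary) whose Hurwitz product
is positive. -/
theorem result : ∃ F : List Bool → List Bool, PolyTime F ∧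
    ∀ (n m : ℕ) (A : Fin m → Matrix (Fin n) (Fin n) ℚ), 0 < n → (∀ k i j, 0 ≤ A k i j) →
      (∃ α : Fin m → ℕ, IsPositive A α) →
      ∃ α : Fin m → ℕ, IsPositive A α ∧ F (bits (code A)) = bits (List.ofFn α) := by
  refine ⟨_, polyTime_opt (Pool.Agent.NPC.Poly.optMap (o := unbits Inp) (f := fun _ a => out a)
    poly_unbits (poly_out.comp (Pool.Agent.NPC.Poly.snd Pool.Agent.NPC.Poly.id))), ?_⟩
  intro n m A hn hA hprim
  classical
  obtain ⟨α₀, hα₀, hpos⟩ := hprim
  have hm : 0 < m := by
    rcases Nat.eq_zero_or_pos m with h | h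
    · subst h
      simp at hα₀
    · exact h
  have hreach : ∀ i j, Reach (fun k a b => 0 < A k a b) i j α₀ := fun i j =>
    (hurwitz_pos_iff hA α₀ i j).1 (hpos i j)
  obtain ⟨h1, h2⟩ := positive_vector (E := fun k a b => 0 < A k a b) ⟨0, hn⟩ hreach hα₀
    (bb_le n m) Nat.one_le_two_pow
  refine ⟨_, ⟨h2, fun i j => (hurwitz_pos_iff hA _ i j).2 (h1 i j)⟩, ?_⟩
  rw [bits_code, unbits_bits, ← out_rawc A hA hm hn]
  rfl

end Pool.Agent.Results.MP_9c2350_lc.PositiveHurwitz
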